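import Pool.Agent.L5helper69.SV.Defs3

/-! Diagonals of multiple sequences. -/

set_option autoImplicit false

namespace Pool.Agent.L5helper10.SV

open Pool.Agent.L5helper69.SV3 Polynomial

open Finset in
/-- the functional -/
noncomputable def LL {m : ℕ} (b : (Fin m → ℕ) → ℂ) : MvPolynomial (Fin m) ℂ →ₗ[ℂ] ℂ :=
  (MvPolynomial.basisMonomials (Fin m) ℂ).constr ℂ (fun s => b s)

lemma LL_one {m : ℕ} (b : (Fin m → ℕ) → ℂ) (s : Fin m →₀ ℕ) : LL b (MvPolynomial.monomial s 1) = b s := by
  have h := (MvPolynomial.basisMonomials (Fin m) ℂ).constr_basis ℂ (fun s => b s) s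
  rw [MvPolynomial.coe_basisMonomials] at h
  exact h

lemma LL_monomial {m : ℕ} (b : (Fin m → ℕ) → ℂ) (s : Fin m →₀ ℕ) (c : ℂ) :
    LL b (MvPolynomial.monomial s c) = c * b s := by
  have : MvPolynomial.monomial s c = c • MvPolynomial.monomial s (1 : ℂ) := by
    rw [MvPolynomial.smul_monomial, smul_eq_mul, mul_one]
  rw [this, map_smul, LL_one, smul_eq_mul]

/-- the ideal -/
noncomputable def JJ (P : ℂ[X]) (m : ℕ) : Ideal (MvPolynomial (Fin m) ℂ) :=
  Ideal.span (Set.range fun j : Fin m => aeval (MvPolynomial.X j : MvPolynomial (Fin m) ℂ) P)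

lemma LL_gen {m : ℕ} (P : ℂ[X]) (b : (Fin m → ℕ) → ℂ)
    (hb : ∀ (j : Fin m) (n : Fin m → ℕ),
      ∑ i ∈ Finset.range (P.natDegree + 1), P.coeff i * b (n + Pi.single j i) = 0) (j : Fin m)
    (g : MvPolynomial (Fin m) ℂ) : LL b (g * aeval (MvPolynomial.X j : MvPolynomial (Fin m) ℂ) P) = 0 := by
  induction g using MvPolynomial.induction_on' with
  | monomial s c =>
    rw [aeval_eq_sum_range, Finset.mul_sum, map_sum]
    have h1 : ∀ i ∈ Finset.range (P.natDegree + 1),
        LL b (MvPolynomial.monomial s c * P.coeff i • (MvPolynomial.X j : MvPolynomial (Fin m) ℂ) ^ i) =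
        c * (P.coeff i * b (⇑s + Pi.single j i)) := by
      intro i _
      rw [MvPolynomial.X_pow_eq_monomial, MvPolynomial.smul_monomial, MvPolynomial.monomial_mul, LL_monomial]
      have : (⇑(s + Finsupp.single j i) : Fin m → ℕ) = ⇑s + Pi.single j i := by
        rw [Finsupp.coe_add, Finsupp.single_eq_pi_single]
      rw [this, smul_eq_mul, mul_one]
      ring
    rw [Finset.sum_congr rfl h1, ← Finset.mul_sum, hb, mul_zero]
  | add p q hp hq => rw [add_mul, map_add, hp, hq, add_zero]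

lemma LL_J {m : ℕ} (P : ℂ[X]) (b : (Fin m → ℕ) → ℂ)
    (hb : ∀ (j : Fin m) (n : Fin m → ℕ),
      ∑ i ∈ Finset.range (P.natDegree + 1), P.coeff i * b (n + Pi.single j i) = 0)
    (f : MvPolynomial (Fin m) ℂ) (hf : f ∈ JJ P m) : LL b f = 0 := by
  have key : ∀ g, LL b (g * f) = 0 := by
    unfold JJ Ideal.span at hf
    induction hf using Submodule.span_induction with
    | mem x hx =>
      obtain ⟨j, rfl⟩ := hx
      exact fun g => LL_gen P b hb j g
    | zero => intro g; rw [mul_zero, map_zero]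
    | add x y _ _ hx hy => intro g; rw [mul_add, map_add, hx, hy, add_zero]
    | smul a x _ hx => intro g; rw [smul_eq_mul, ← mul_assoc]; exact hx _
  simpa using key 1

/-- the product of the variables -/
noncomputable def uu (m : ℕ) : MvPolynomial (Fin m) ℂ := ∏ j, MvPolynomial.X j

lemma uu_pow (m i : ℕ) : uu m ^ i = MvPolynomial.monomial (Finsupp.equivFunOnFinite.symm (fun _ => i)) 1 := by
  rw [MvPolynomial.monomial_eq, map_one, one_mul, Finsupp.prod_fintype _ _ (fun _ => pow_zero _)]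
  unfold uu
  rw [← Finset.prod_pow]
  rfl

lemma LL_aeval {m : ℕ} (b : (Fin m → ℕ) → ℂ) (Q : ℂ[X]) :
    LL b (aeval (uu m) Q) = ∑ i ∈ Finset.range (Q.natDegree + 1), Q.coeff i * b (fun _ => i) := by
  rw [aeval_eq_sum_range, map_sum]
  apply Finset.sum_congr rfl
  intro i _
  rw [map_smul, uu_pow, LL_one, smul_eq_mul]
  rfl

theorem diag : St_Diag := by
  intro P hP m
  classical
  set Q0 : ℂ[X] := ∏ z ∈ Fintype.piFinset (fun _ : Fin m => P.roots.toFinset), (X - C (∏ j, z j)) with hQ0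
  have hw : aeval (uu m) Q0 ∈ (JJ P m).radical := by
    rw [Ideal.radical_eq_sInf, Submodule.mem_sInf]
    rintro p ⟨hJ, hp⟩
    have h1 : ∀ j : Fin m, ∃ z ∈ P.roots, (MvPolynomial.X j - MvPolynomial.C z : MvPolynomial (Fin m) ℂ) ∈ p := by
      intro j
      have h2 : aeval (MvPolynomial.X j : MvPolynomial (Fin m) ℂ) P ∈ p := hJ (Ideal.subset_span ⟨j, rfl⟩)
      have h3 : P = (P.roots.map fun a => X - C a).prod :=
        ((IsAlgClosed.splits P).eq_prod_roots_of_monic hP)
      rw [h3, map_multiset_prod, Multiset.map_map] at h2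
      obtain ⟨y, hy, hyp⟩ := (hp.multiset_prod_mem_iff_exists_mem _).1 h2
      obtain ⟨z, hz, rfl⟩ := Multiset.mem_map.1 hy
      refine ⟨z, hz, ?_⟩
      simpa using hyp
    choose z hz hzp using h1
    have h4 : (uu m - MvPolynomial.C (∏ j, z j) : MvPolynomial (Fin m) ℂ) ∈ p := by
      rw [← Ideal.Quotient.eq]
      unfold uu
      rw [map_prod, map_prod, map_prod]
      apply Finset.prod_congr rfl
      intro j _
      exact Ideal.Quotient.eq.2 (hzp j)
    have h5 : aeval (uu m) Q0 = ∏ z ∈ Fintype.piFinset (fun _ : Fin m => P.roots.toFinset),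
        (uu m - MvPolynomial.C (∏ j, z j)) := by
      rw [hQ0, map_prod]
      apply Finset.prod_congr rfl
      intro y _
      rw [map_sub, aeval_X, aeval_C]
      rfl
    rw [h5]
    have h6 : z ∈ Fintype.piFinset (fun _ : Fin m => P.roots.toFinset) := by
      rw [Fintype.mem_piFinset]
      intro j
      exact Multiset.mem_toFinset.2 (hz j)
    rw [← Finset.mul_prod_erase _ _ h6]
    exact Ideal.mul_mem_right _ p h4
  obtain ⟨e, he⟩ := Ideal.mem_radical_iff.1 hw
  have hmon : Q0.Monic := monic_prod_of_monic _ _ (fun z _ => monic_X_sub_C _)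
  refine ⟨Q0 ^ e, hmon.pow e, ?_, ?_⟩
  · intro x hx
    rw [roots_pow] at hx
    have hx2 := Multiset.mem_of_mem_nsmul hx
    have h7 : IsRoot Q0 x := isRoot_of_mem_roots hx2
    rw [hQ0, IsRoot.def, eval_prod, Finset.prod_eq_zero_iff] at h7
    obtain ⟨z, hz, hz2⟩ := h7
    rw [eval_sub, eval_X, eval_C, sub_eq_zero] at hz2
    rw [hz2]
    apply Submonoid.prod_mem
    intro j _
    rw [Fintype.mem_piFinset] at hz
    exact Submonoid.subset_closure (Multiset.mem_toFinset.1 (hz j))
  · intro b hb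
    rw [← LL_aeval, map_pow]
    exact LL_J P b hb _ he

end Pool.Agent.L5helper10.SV
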